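import Pool.Agent.Y774.KC.Mom

/-!
# Many pairs of signings with almost equal values
-/

set_option autoImplicit false

namespace Pool.Agent.Y774.KC

open Finset

/-- A lower bound for the number of collisions of a map (Gibbs' inequality and Jensen). -/
theorem collision {α β : Type} [DecidableEq β] (Ω : Finset α) (Y : α → β)
    (Q : β → ℝ) (hQ : ∀ y, 0 < Q y) (hs : ∑ y ∈ Ω.image Y, Q y ≤ 1) (E : ℝ)
    (hE : ∑ x ∈ Ω, -Real.log (Q (Y x)) ≤ Ω.card * E) :
    (Ω.card : ℝ) ^ 2 * Real.exp (-E) ≤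
      ∑ x ∈ Ω, ((Ω.filter (fun x' => Y x' = Y x)).card : ℝ) := by
  rcases Ω.eq_empty_or_nonempty with rfl | hΩ
  · simp
  set N : ℝ := (Ω.card : ℝ) with hN
  have hN0 : 0 < N := by
    rw [hN]
    exact_mod_cast hΩ.card_pos
  set c : α → ℝ := fun x => ((Ω.filter (fun x' => Y x' = Y x)).card : ℝ) with hc
  have hc0 : ∀ x ∈ Ω, 0 < c x := by
    intro x hx
    simp only [hc]
    exact_mod_cast Finset.card_pos.2 ⟨x, by simp [hx]⟩
  have h1 : ∑ x ∈ Ω, Q (Y x) / c x ≤ 1 := by
    refine le_trans (le_of_eq ?_) hs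
    symm
    apply Finset.sum_image'
    intro i hi
    have h2 : ∀ j ∈ Ω.filter (fun j => Y j = Y i), Q (Y j) / c j = Q (Y i) / c i := by
      intro j hj
      have hj2 := (Finset.mem_filter.1 hj).2
      simp only [hc, hj2]
    rw [Finset.sum_congr rfl h2, Finset.sum_const, nsmul_eq_mul]
    have := hc0 i hi
    change Q (Y i) = c i * (Q (Y i) / c i)
    field_simp
  have h3 : ∀ x ∈ Ω, Real.log (Q (Y x)) - Real.log (c x / N) ≤ N * (Q (Y x) / c x) - 1 := by
    intro x hx
    have hcx := hc0 x hx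
    have h4 : Real.log (Q (Y x)) - Real.log (c x / N) = Real.log (Q (Y x) / (c x / N)) := by
      rw [Real.log_div (hQ _).ne' (by positivity)]
    rw [h4]
    have h5 : 0 < Q (Y x) / (c x / N) := div_pos (hQ _) (by positivity)
    have h6 := Real.log_le_sub_one_of_pos h5
    have h7 : Q (Y x) / (c x / N) = N * (Q (Y x) / c x) := by
      field_simp
    rw [h7] at h6
    rw [h7]
    exact h6
  have h8 : ∑ x ∈ Ω, (Real.log (Q (Y x)) - Real.log (c x / N)) ≤ 0 := by
    refine (Finset.sum_le_sum h3).trans ?_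
    rw [Finset.sum_sub_distrib, ← Finset.mul_sum, Finset.sum_const, nsmul_eq_mul, mul_one]
    nlinarith
  have h9 : -(N * E) ≤ ∑ x ∈ Ω, Real.log (c x / N) := by
    rw [Finset.sum_sub_distrib] at h8
    rw [Finset.sum_neg_distrib] at hE
    linarith
  have h10 : ∀ x ∈ Ω, Real.exp (-E) * (1 + Real.log (c x / N) + E) ≤ c x / N := by
    intro x hx
    have hcx := hc0 x hx
    have h11 : c x / N = Real.exp (-E) * Real.exp (Real.log (c x / N) + E) := by
      rw [← Real.exp_add]
      rw [show -E + (Real.log (c x / N) + E) = Real.log (c x / N) by ring,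
        Real.exp_log (by positivity)]
    conv_rhs => rw [h11]
    apply mul_le_mul_of_nonneg_left _ (Real.exp_pos _).le
    have := Real.add_one_le_exp (Real.log (c x / N) + E)
    linarith
  have h12 : Real.exp (-E) * N ≤ ∑ x ∈ Ω, c x / N := by
    refine le_trans ?_ (Finset.sum_le_sum h10)
    rw [← Finset.mul_sum, Finset.sum_add_distrib, Finset.sum_add_distrib, Finset.sum_const,
      Finset.sum_const, nsmul_eq_mul, nsmul_eq_mul]
    apply mul_le_mul_of_nonneg_left _ (Real.exp_pos _).le
    linarith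
  rw [← Finset.sum_div, le_div_iff₀ hN0] at h12
  calc N ^ 2 * Real.exp (-E) = Real.exp (-E) * N * N := by ring
    _ ≤ _ := h12

variable {ι κ : Type} [DecidableEq ι] [Fintype κ]

open Classical in
/-- Pairs of signings of `S` whose values differ by at most `2 D` in every coordinate. -/
noncomputable def prs (a : κ → ι → ℝ) (S : Finset ι) (D : ℝ) : Finset (Finset ι × Finset ι) :=
  (S.powerset ×ˢ S.powerset).filter
    (fun p => ∀ k, |sg (a k) S p.1 - sg (a k) S p.2| ≤ 2 * D)

theorem log_Z_le (lam : ℝ) (hl : 0 < lam) :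
    Real.log (1 + 2 / (Real.exp lam - 1)) ≤ 4 / lam ^ 2 := by
  have h1 : 1 + lam + lam ^ 2 / 2 ≤ Real.exp lam := Real.quadratic_le_exp_of_nonneg hl.le
  have h2 : lam ^ 2 / 2 ≤ Real.exp lam - 1 := by linarith
  have h3 : 0 < lam ^ 2 / 2 := by positivity
  have h4 : 2 / (Real.exp lam - 1) ≤ 4 / lam ^ 2 := by
    calc 2 / (Real.exp lam - 1) ≤ 2 / (lam ^ 2 / 2) := by
          apply div_le_div_of_nonneg_left (by norm_num) h3 h2
      _ = 4 / lam ^ 2 := by field_simp; norm_num
  have h5 : 0 < 1 + 2 / (Real.exp lam - 1) := by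
    have : 0 < Real.exp lam - 1 := by linarith
    positivity
  have h6 := Real.log_le_sub_one_of_pos h5
  linarith

theorem card_prs (a : κ → ι → ℝ) (S : Finset ι) (D : ℝ) (hD : 0 < D)
    (ha : ∀ i ∈ S, ∑ k, a k i ^ 2 ≤ 1) :
    (4:ℝ) ^ S.card * Real.exp (-(12 / D ^ 2) * S.card) ≤ ((prs a S D).card : ℝ) := by
  classical
  rcases S.eq_empty_or_nonempty with rfl | hS
  · simp only [Finset.card_empty, pow_zero, Nat.cast_zero, mul_zero, Real.exp_zero, mul_one]
    have h1 : ((∅ : Finset ι), (∅ : Finset ι)) ∈ prs a ∅ D := by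
      simp [prs, sg, hD.le]
    exact_mod_cast Finset.card_pos.2 ⟨_, h1⟩
  have hs : (0:ℝ) < S.card := by exact_mod_cast hS.card_pos
  set s : ℝ := (S.card : ℝ) with hsdef
  set m : ℝ := (Fintype.card κ : ℝ) with hm
  have hm0 : 0 ≤ m := by positivity
  set σ : κ → ℝ := fun k => Real.sqrt (∑ i ∈ S, a k i ^ 2 + s / (m + 1)) with hσ
  have hpos : ∀ k, 0 < ∑ i ∈ S, a k i ^ 2 + s / (m + 1) := by
    intro k
    have : 0 ≤ ∑ i ∈ S, a k i ^ 2 := Finset.sum_nonneg fun i _ => sq_nonneg _
    have h2 : 0 < s / (m + 1) := by positivity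
    linarith
  have hσ0 : ∀ k, 0 < σ k := fun k => Real.sqrt_pos.2 (hpos k)
  have hσ2 : ∀ k, σ k ^ 2 = ∑ i ∈ S, a k i ^ 2 + s / (m + 1) :=
    fun k => Real.sq_sqrt (hpos k).le
  have hsum : ∑ k, σ k ^ 2 ≤ 2 * s := by
    simp_rw [hσ2]
    rw [Finset.sum_add_distrib, Finset.sum_comm, Finset.sum_const, nsmul_eq_mul]
    have h1 : ∑ i ∈ S, ∑ k, a k i ^ 2 ≤ s := by
      refine (Finset.sum_le_sum ha).trans ?_
      simp [hsdef]
    have h2 : ((Finset.univ : Finset κ).card : ℝ) * (s / (m + 1)) ≤ s := by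
      rw [Finset.card_univ, ← hm, mul_div_assoc', div_le_iff₀ (by positivity)]
      nlinarith
    linarith
  set lam : κ → ℝ := fun k => D / σ k with hlam
  have hl0 : ∀ k, 0 < lam k := fun k => div_pos hD (hσ0 k)
  set Z : κ → ℝ := fun k => 1 + 2 / (Real.exp (lam k) - 1) with hZ
  have hZ0 : ∀ k, 0 < Z k := by
    intro k
    have := Real.add_one_lt_exp (hl0 k).ne'
    have h2 : 0 < Real.exp (lam k) - 1 := by linarith [hl0 k]
    simp only [hZ]
    positivity
  set Y : Finset ι → κ → ℤ := fun T k => round (sg (a k) S T / (2 * D)) with hY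
  set q : κ → ℤ → ℝ := fun k j => Real.exp (-lam k * |(j:ℝ)|) / Z k with hq
  have hq0 : ∀ k j, 0 < q k j := fun k j => div_pos (Real.exp_pos _) (hZ0 k)
  have key := collision S.powerset Y (fun y => ∏ k, q k (y k))
    (fun y => Finset.prod_pos fun k _ => hq0 k (y k)) ?_ (12 / D ^ 2 * s) ?_
  · rw [Finset.card_powerset] at key
    push_cast at key
    have h1 : ((2:ℝ) ^ S.card) ^ 2 = 4 ^ S.card := by
      rw [← pow_mul, mul_comm, pow_mul]
      norm_num
    rw [h1, ← neg_mul] at key
    refine key.trans ?_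
    rw [prs, Finset.card_filter, Finset.sum_product]
    push_cast
    refine Finset.sum_le_sum fun T hT => ?_
    rw [Finset.card_filter]
    push_cast
    refine Finset.sum_le_sum fun T' hT' => ?_
    split_ifs with h2 h3 h3
    · exact le_rfl
    · exfalso
      apply h3
      intro k
      have h4 := congrFun h2 k
      simp only [hY] at h4
      have h5 := abs_sub_round (sg (a k) S T / (2 * D))
      have h6 := abs_sub_round (sg (a k) S T' / (2 * D))
      rw [h4] at h6
      rw [abs_le] at h5 h6 ⊢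
      have h7 : sg (a k) S T - sg (a k) S T' =
          2 * D * (sg (a k) S T / (2 * D) - sg (a k) S T' / (2 * D)) := by
        field_simp
      rw [h7]
      constructor <;> nlinarith
    · norm_num
    · exact le_rfl
  · -- sum of Q over the image
    set M : ℕ := ∑ T ∈ S.powerset, ∑ k, (Y T k).natAbs with hM
    have h1 : S.powerset.image Y ⊆ Fintype.piFinset fun _ : κ => Finset.Icc (-(M:ℤ)) M := by
      intro y hy
      obtain ⟨T, hT, rfl⟩ := Finset.mem_image.1 hy
      rw [Fintype.mem_piFinset]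
      intro k
      have h2 : (Y T k).natAbs ≤ M := by
        calc (Y T k).natAbs ≤ ∑ k, (Y T k).natAbs :=
              Finset.single_le_sum (f := fun k => (Y T k).natAbs) (fun _ _ => Nat.zero_le _)
                (Finset.mem_univ k)
          _ ≤ M := Finset.single_le_sum (f := fun T => ∑ k, (Y T k).natAbs)
                (fun _ _ => Nat.zero_le _) hT
      rw [Finset.mem_Icc]
      omega
    refine (Finset.sum_le_sum_of_subset_of_nonneg h1
      fun y _ _ => (Finset.prod_pos fun k _ => hq0 k (y k)).le).trans ?_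
    rw [← Finset.prod_univ_sum]
    refine Finset.prod_le_one (fun k _ => Finset.sum_nonneg fun j _ => (hq0 k j).le) fun k _ => ?_
    simp only [hq]
    rw [← Finset.sum_div, div_le_one (hZ0 k)]
    exact geom_le (lam k) (hl0 k) M
  · -- the entropy bound
    have h1 : ∀ T, -Real.log (∏ k, q k (Y T k)) =
        ∑ k, (lam k * |((Y T k : ℤ) : ℝ)| + Real.log (Z k)) := by
      intro T
      rw [Real.log_prod (fun k _ => (hq0 k _).ne'), ← Finset.sum_neg_distrib]
      refine Finset.sum_congr rfl fun k _ => ?_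
      simp only [hq]
      rw [Real.log_div (Real.exp_ne_zero _) (hZ0 k).ne', Real.log_exp]
      ring
    simp_rw [h1]
    rw [Finset.sum_comm, Finset.card_powerset]
    push_cast
    have h2 : ∀ k, ∑ T ∈ S.powerset, (lam k * |((Y T k : ℤ) : ℝ)| + Real.log (Z k)) ≤
        2 ^ S.card * (6 * σ k ^ 2 / D ^ 2) := by
      intro k
      rw [Finset.sum_add_distrib, ← Finset.mul_sum, Finset.sum_const, nsmul_eq_mul,
        Finset.card_powerset]
      push_cast
      have h3 := sum_round_le (a k) S D (σ k) hD (hσ0 k) (by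
        rw [hσ2]
        have : 0 ≤ s / (m + 1) := by positivity
        linarith)
      have h4 := log_Z_le (lam k) (hl0 k)
      have hP : (0:ℝ) < 2 ^ S.card := by positivity
      have h5 : lam k * ∑ T ∈ S.powerset, |((Y T k : ℤ) : ℝ)| ≤
          lam k * (2 ^ S.card * (2 * (σ k / D) ^ 3)) :=
        mul_le_mul_of_nonneg_left h3 (hl0 k).le
      have h6 : lam k * (2 ^ S.card * (2 * (σ k / D) ^ 3)) =
          2 ^ S.card * (2 * σ k ^ 2 / D ^ 2) := by
        have := (hσ0 k).ne'
        simp only [hlam]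
        field_simp
      have h7 : 4 / lam k ^ 2 = 4 * σ k ^ 2 / D ^ 2 := by
        have := (hσ0 k).ne'
        simp only [hlam]
        field_simp
      have h8 : (2:ℝ) ^ S.card * Real.log (Z k) ≤ 2 ^ S.card * (4 * σ k ^ 2 / D ^ 2) := by
        rw [← h7]
        exact mul_le_mul_of_nonneg_left h4 hP.le
      have h9 : (2:ℝ) ^ S.card * (6 * σ k ^ 2 / D ^ 2) =
          2 ^ S.card * (2 * σ k ^ 2 / D ^ 2) + 2 ^ S.card * (4 * σ k ^ 2 / D ^ 2) := by ring
      rw [h9]
      linarith
    refine (Finset.sum_le_sum fun k _ => h2 k).trans ?_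
    rw [← Finset.mul_sum]
    apply mul_le_mul_of_nonneg_left _ (by positivity)
    rw [← Finset.sum_div, ← Finset.mul_sum, div_mul_eq_mul_div]
    apply div_le_div_of_nonneg_right _ (by positivity)
    linarith

end Pool.Agent.Y774.KC
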