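import Mathlib

/-!
# Moments of signed sums over subsets, rounding
-/

set_option autoImplicit false

namespace Pool.Agent.Y774.KC

open Finset

variable {ι κ : Type} [DecidableEq ι]

/-- The signed sum of `f` over `S` with `+` on `T` and `-` on `S \ T`. -/
noncomputable def sg (f : ι → ℝ) (S T : Finset ι) : ℝ := ∑ i ∈ T, f i - ∑ i ∈ S \ T, f i

theorem sg_insert_not (f : ι → ℝ) {S T : Finset ι} {x : ι} (hx : x ∉ S) (hT : T ⊆ S) :
    sg f (insert x S) T = sg f S T - f x := by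
  have hxT : x ∉ T := fun h => hx (hT h)
  unfold sg
  rw [insert_sdiff_of_notMem _ hxT, sum_insert (by simp [hx])]
  ring

theorem sg_insert_mem (f : ι → ℝ) {S T : Finset ι} {x : ι} (hx : x ∉ S) (hT : T ⊆ S) :
    sg f (insert x S) (insert x T) = sg f S T + f x := by
  have hxT : x ∉ T := fun h => hx (hT h)
  unfold sg
  have h1 : insert x S \ insert x T = S \ T := by
    ext i
    simp only [mem_sdiff, mem_insert, not_or]
    constructor
    · rintro ⟨h | h, h2, h3⟩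
      · exact absurd h h2
      · exact ⟨h, h3⟩
    · rintro ⟨h, h2⟩
      exact ⟨Or.inr h, fun h3 => hx (h3 ▸ h), h2⟩
  rw [h1, sum_insert hxT]
  ring

theorem m2 (f : ι → ℝ) (S : Finset ι) :
    ∑ T ∈ S.powerset, sg f S T ^ 2 = 2 ^ S.card * ∑ i ∈ S, f i ^ 2 := by
  induction S using Finset.induction_on with
  | empty => simp [sg]
  | insert x S hx ih =>
    rw [sum_powerset_insert hx, card_insert_of_notMem hx, sum_insert hx]
    have h1 : ∑ T ∈ S.powerset, sg f (insert x S) T ^ 2 =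
        ∑ T ∈ S.powerset, (sg f S T - f x) ^ 2 :=
      sum_congr rfl fun T hT => by rw [sg_insert_not f hx (mem_powerset.1 hT)]
    have h2 : ∑ T ∈ S.powerset, sg f (insert x S) (insert x T) ^ 2 =
        ∑ T ∈ S.powerset, (sg f S T + f x) ^ 2 :=
      sum_congr rfl fun T hT => by rw [sg_insert_mem f hx (mem_powerset.1 hT)]
    rw [h1, h2, ← sum_add_distrib]
    have h3 : ∀ T, (sg f S T - f x) ^ 2 + (sg f S T + f x) ^ 2 = 2 * sg f S T ^ 2 + 2 * f x ^ 2 :=
      fun T => by ring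
    simp_rw [h3]
    rw [sum_add_distrib, ← mul_sum, ih, sum_const, card_powerset]
    simp only [nsmul_eq_mul, Nat.cast_pow, Nat.cast_ofNat]
    ring

theorem m4 (f : ι → ℝ) (S : Finset ι) :
    ∑ T ∈ S.powerset, sg f S T ^ 4 ≤ 3 * 2 ^ S.card * (∑ i ∈ S, f i ^ 2) ^ 2 := by
  induction S using Finset.induction_on with
  | empty => simp [sg]
  | insert x S hx ih =>
    rw [sum_powerset_insert hx, card_insert_of_notMem hx, sum_insert hx]
    have h1 : ∑ T ∈ S.powerset, sg f (insert x S) T ^ 4 =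
        ∑ T ∈ S.powerset, (sg f S T - f x) ^ 4 :=
      sum_congr rfl fun T hT => by rw [sg_insert_not f hx (mem_powerset.1 hT)]
    have h2 : ∑ T ∈ S.powerset, sg f (insert x S) (insert x T) ^ 4 =
        ∑ T ∈ S.powerset, (sg f S T + f x) ^ 4 :=
      sum_congr rfl fun T hT => by rw [sg_insert_mem f hx (mem_powerset.1 hT)]
    rw [h1, h2, ← sum_add_distrib]
    have h3 : ∀ T, (sg f S T - f x) ^ 4 + (sg f S T + f x) ^ 4 =
        2 * sg f S T ^ 4 + 12 * f x ^ 2 * sg f S T ^ 2 + 2 * f x ^ 4 :=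
      fun T => by ring
    simp_rw [h3]
    rw [sum_add_distrib, sum_add_distrib, ← mul_sum, ← mul_sum, m2, sum_const, card_powerset]
    simp only [nsmul_eq_mul, Nat.cast_pow, Nat.cast_ofNat]
    have h4 : (0:ℝ) ≤ 2 ^ S.card := by positivity
    have h5 : 0 ≤ f x ^ 2 := sq_nonneg _
    have h7 : f x ^ 4 = (f x ^ 2) ^ 2 := by ring
    rw [h7, pow_succ (2:ℝ)]
    generalize (2:ℝ) ^ S.card = P at *
    generalize ∑ i ∈ S, f i ^ 2 = s at *
    generalize f x ^ 2 = u at *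
    generalize ∑ T ∈ S.powerset, sg f S T ^ 4 = M at *
    have h8 : 0 ≤ P * u ^ 2 := by positivity
    nlinarith

/-- `|round z| ≤ (2 |z|) ^ 3`. -/
theorem abs_round_le (z : ℝ) : |((round z : ℤ) : ℝ)| ≤ (2 * |z|) ^ 3 := by
  by_cases h : |z| < 1 / 2
  · have : round z = 0 := by
      rw [round_eq_zero_iff]
      rw [abs_lt] at h
      exact ⟨h.1.le, h.2⟩
    rw [this]
    simp only [Int.cast_zero, abs_zero]
    positivity
  · push Not at h
    have h1 : |z - round z| ≤ 1 / 2 := abs_sub_round z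
    have h2 : |((round z : ℤ) : ℝ)| ≤ |z| + 1 / 2 := by
      have := abs_sub_abs_le_abs_sub ((round z : ℤ) : ℝ) z
      rw [abs_sub_comm] at this
      linarith
    have h3 : 1 ≤ 2 * |z| := by linarith
    have h4 : 2 * |z| ≤ (2 * |z|) ^ 3 := by
      calc 2 * |z| = (2 * |z|) ^ 1 := (pow_one _).symm
        _ ≤ (2 * |z|) ^ 3 := pow_le_pow_right₀ h3 (by norm_num)
    linarith

/-- The average of the rounded sum. -/
theorem sum_round_le (f : ι → ℝ) (S : Finset ι) (D σ : ℝ) (hD : 0 < D) (hσ : 0 < σ)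
    (h : ∑ i ∈ S, f i ^ 2 ≤ σ ^ 2) :
    ∑ T ∈ S.powerset, |((round (sg f S T / (2 * D)) : ℤ) : ℝ)| ≤
      2 ^ S.card * (2 * (σ / D) ^ 3) := by
  have h1 : ∀ T, |((round (sg f S T / (2 * D)) : ℤ) : ℝ)| ≤
      (σ * sg f S T ^ 2 + sg f S T ^ 4 / σ) / 2 / D ^ 3 := by
    intro T
    refine (abs_round_le _).trans ?_
    set X := sg f S T
    have h2 : (2 * |X / (2 * D)|) ^ 3 = |X| ^ 3 / D ^ 3 := by
      rw [abs_div, abs_of_pos (by positivity : 0 < 2 * D)]
      field_simp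
    rw [h2]
    apply div_le_div_of_nonneg_right _ (by positivity)
    have h3 : |X| ^ 2 = X ^ 2 := sq_abs X
    have h4 : |X| ^ 4 = X ^ 4 := by
      rw [show (4:ℕ) = 2 * 2 by norm_num, pow_mul, pow_mul, sq_abs]
    rw [le_div_iff₀ (by norm_num : (0:ℝ) < 2), ← h3, ← h4]
    have h5 : 0 ≤ |X| := abs_nonneg X
    have h6 : σ * |X| ^ 2 + |X| ^ 4 / σ - |X| ^ 3 * 2 = |X| ^ 2 * (σ - |X|) ^ 2 / σ := by
      field_simp
      ring
    have h7 : 0 ≤ |X| ^ 2 * (σ - |X|) ^ 2 / σ := by positivity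
    linarith
  refine (sum_le_sum fun T _ => h1 T).trans ?_
  rw [← sum_div, ← sum_div, sum_add_distrib, ← mul_sum, ← sum_div, m2]
  have h0 : 0 ≤ ∑ i ∈ S, f i ^ 2 := sum_nonneg fun i _ => sq_nonneg _
  have hP : (0:ℝ) < 2 ^ S.card := by positivity
  have h8 : (∑ T ∈ S.powerset, sg f S T ^ 4) / σ ≤ 3 * 2 ^ S.card * σ ^ 3 := by
    rw [div_le_iff₀ hσ]
    refine (m4 f S).trans ?_
    have : (∑ i ∈ S, f i ^ 2) ^ 2 ≤ (σ ^ 2) ^ 2 := pow_le_pow_left₀ h0 h 2
    nlinarith
  have h9 : σ * (2 ^ S.card * ∑ i ∈ S, f i ^ 2) ≤ 2 ^ S.card * σ ^ 3 := by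
    have : σ * (2 ^ S.card * ∑ i ∈ S, f i ^ 2) ≤ σ * (2 ^ S.card * σ ^ 2) := by gcongr
    linarith [this, show σ * ((2:ℝ) ^ S.card * σ ^ 2) = 2 ^ S.card * σ ^ 3 by ring]
  rw [div_pow, div_div, div_le_iff₀ (by positivity)]
  have h10 : (2:ℝ) ^ S.card * (2 * (σ ^ 3 / D ^ 3)) * (2 * D ^ 3) = 2 ^ S.card * (4 * σ ^ 3) := by
    field_simp
    ring
  rw [h10]
  linarith

/-- Sum of the geometric weights. -/
theorem geom_le (lam : ℝ) (hl : 0 < lam) (M : ℕ) :
    ∑ k ∈ Finset.Icc (-(M:ℤ)) M, Real.exp (-lam * |(k:ℝ)|) ≤ 1 + 2 / (Real.exp lam - 1) := by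
  have hq : 0 < Real.exp lam - 1 := by
    have := Real.add_one_lt_exp hl.ne'
    linarith
  have key : ∀ M : ℕ, ∑ k ∈ Finset.Icc (-(M:ℤ)) M, Real.exp (-lam * |(k:ℝ)|) =
      1 + 2 / (Real.exp lam - 1) * (1 - Real.exp (-lam * M)) := by
    intro M
    induction M with
    | zero => simp
    | succ n ih =>
      have h1 : Finset.Icc (-((n+1:ℕ):ℤ)) ((n+1:ℕ):ℤ) =
          insert (-((n+1:ℕ):ℤ)) (insert ((n+1:ℕ):ℤ) (Finset.Icc (-(n:ℤ)) n)) := by
        ext k
        simp only [Finset.mem_Icc, Finset.mem_insert]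
        push_cast
        omega
      rw [h1, Finset.sum_insert, Finset.sum_insert, ih]
      · have h2 : |(((n+1:ℕ):ℤ):ℝ)| = (n:ℝ) + 1 := by
          push_cast
          exact abs_of_nonneg (by positivity)
        have h3 : |((-((n+1:ℕ):ℤ) : ℤ):ℝ)| = (n:ℝ) + 1 := by
          push_cast
          rw [abs_neg]
          exact abs_of_nonneg (by positivity)
        rw [h2, h3]
        have h4 : Real.exp (-lam * n) = Real.exp lam * Real.exp (-lam * ((n:ℝ) + 1)) := by
          rw [← Real.exp_add]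
          congr 1
          ring
        push_cast
        rw [h4]
        field_simp
        ring
      · simp only [Finset.mem_Icc, not_and]
        push_cast
        omega
      · simp only [Finset.mem_Icc, Finset.mem_insert]
        push_cast
        omega
  rw [key]
  have h5 : 0 < Real.exp (-lam * M) := Real.exp_pos _
  have h6 : 0 < 2 / (Real.exp lam - 1) := by positivity
  nlinarith

end Pool.Agent.Y774.KC
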