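import Pool.Agent.Y774.KC.Step

/-!
# The recursion and the main counting theorem
-/

set_option autoImplicit false

namespace Pool.Agent.Y774.KC

open Finset

variable {ι κ : Type} [DecidableEq ι] [Fintype κ]

theorem agr_invol (S T T' : Finset ι) (hT : T ⊆ S) (hT' : T' ⊆ S) :
    agr S (T, agr S (T, T')) = T' := by
  ext i
  have h := @hT i
  have h' := @hT' i
  simp only [agr, mem_union, mem_inter, mem_sdiff, not_or]
  by_cases h1 : i ∈ T <;> by_cases h2 : i ∈ T' <;> by_cases h3 : i ∈ S <;> simp_all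

theorem sum_agr (S : Finset ι) (x : ℝ) :
    ∑ p ∈ S.powerset ×ˢ S.powerset, x ^ (agr S p).card = (2 + 2 * x) ^ S.card := by
  rw [sum_product]
  have h1 : ∀ T ∈ S.powerset, ∑ T' ∈ S.powerset, x ^ (agr S (T, T')).card = (1 + x) ^ S.card := by
    intro T hT
    rw [mem_powerset] at hT
    have h2 : ∑ T' ∈ S.powerset, x ^ (agr S (T, T')).card = ∑ Z ∈ S.powerset, x ^ Z.card := by
      refine Finset.sum_nbij' (fun T' => agr S (T, T')) (fun T' => agr S (T, T')) ?_ ?_ ?_ ?_ ?_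
      · intro T' hT'
        exact mem_powerset.2 (agr_subset hT)
      · intro T' hT'
        exact mem_powerset.2 (agr_subset hT)
      · intro T' hT'
        exact agr_invol S T T' hT (mem_powerset.1 hT')
      · intro T' hT'
        exact agr_invol S T T' hT (mem_powerset.1 hT')
      · intro T' _
        rfl
    rw [h2]
    have h3 := Finset.sum_pow_mul_eq_add_pow x 1 S
    simp only [one_pow, mul_one] at h3
    rw [h3, add_comm]
  rw [sum_congr rfl h1, sum_const, card_powerset, nsmul_eq_mul]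
  push_cast
  rw [← mul_pow]
  congr 1
  ring

theorem half_exp_le : (1 + Real.exp (2 / 5)) / 2 ≤ Real.exp (11 / 50) := by
  have h1 : (1 + Real.exp (2 / 5)) / 2 = Real.exp (1 / 5) * Real.cosh (1 / 5) := by
    rw [Real.cosh_eq, mul_div_assoc', mul_add, ← Real.exp_add, ← Real.exp_add]
    norm_num
    ring
  rw [h1]
  have h2 := Real.cosh_le_exp_half_sq (1 / 5)
  calc Real.exp (1 / 5) * Real.cosh (1 / 5) ≤ Real.exp (1 / 5) * Real.exp ((1 / 5) ^ 2 / 2) :=
        mul_le_mul_of_nonneg_left h2 (Real.exp_pos _).le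
    _ = Real.exp (11 / 50) := by
        rw [← Real.exp_add]
        norm_num

theorem avg_le (S : Finset ι) (G : Finset (Finset ι × Finset ι))
    (hG : G ⊆ S.powerset ×ˢ S.powerset)
    (hc : (4:ℝ) ^ S.card * Real.exp (-(1 / 50) * S.card) ≤ G.card) :
    ∑ p ∈ G, ((agr S p).card : ℝ) ≤ 3 / 5 * S.card * G.card := by
  have h1 : ∀ p : Finset ι × Finset ι, 1 + (2 / 5 * ((agr S p).card : ℝ) - 6 / 25 * S.card) ≤
      Real.exp (-(6 / 25) * S.card) * Real.exp (2 / 5) ^ (agr S p).card := by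
    intro p
    rw [← Real.exp_nat_mul, ← Real.exp_add]
    have := Real.add_one_le_exp (2 / 5 * ((agr S p).card : ℝ) - 6 / 25 * S.card)
    refine le_trans (le_of_eq (by ring)) (this.trans (le_of_eq ?_))
    congr 1
    ring
  have h2 : ∑ p ∈ G, (1 + (2 / 5 * ((agr S p).card : ℝ) - 6 / 25 * S.card)) ≤ G.card := by
    refine (sum_le_sum fun p _ => h1 p).trans ?_
    rw [← mul_sum]
    have h3 : ∑ p ∈ G, Real.exp (2 / 5) ^ (agr S p).card ≤ (2 + 2 * Real.exp (2 / 5)) ^ S.card := by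
      rw [← sum_agr S]
      exact sum_le_sum_of_subset_of_nonneg hG fun p _ _ => by positivity
    have h4 : (2 + 2 * Real.exp (2 / 5)) ^ S.card ≤ 4 ^ S.card * Real.exp (11 / 50 * S.card) := by
      have h5 : 2 + 2 * Real.exp (2 / 5) = 4 * ((1 + Real.exp (2 / 5)) / 2) := by ring
      rw [h5, mul_pow]
      apply mul_le_mul_of_nonneg_left _ (by positivity)
      have h6 := pow_le_pow_left₀ (by positivity) half_exp_le S.card
      refine h6.trans (le_of_eq ?_)
      rw [← Real.exp_nat_mul]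
      congr 1
      ring
    calc Real.exp (-(6 / 25) * S.card) * ∑ p ∈ G, Real.exp (2 / 5) ^ (agr S p).card
        ≤ Real.exp (-(6 / 25) * S.card) * (4 ^ S.card * Real.exp (11 / 50 * S.card)) :=
          mul_le_mul_of_nonneg_left (h3.trans h4) (Real.exp_pos _).le
      _ = 4 ^ S.card * Real.exp (-(1 / 50) * S.card) := by
          rw [mul_left_comm, ← Real.exp_add]
          congr 2
          ring
      _ ≤ G.card := hc
  rw [sum_add_distrib, sum_const, nsmul_eq_mul, mul_one, sum_sub_distrib, ← mul_sum, sum_const,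
    nsmul_eq_mul] at h2
  nlinarith

theorem sum_exp_ge (S : Finset ι) (G : Finset (Finset ι × Finset ι)) (u : ℝ) (hu : 0 ≤ u)
    (h : ∑ p ∈ G, ((agr S p).card : ℝ) ≤ 3 / 5 * S.card * G.card) :
    (G.card : ℝ) * Real.exp (-(3 / 5 * u) * S.card) ≤
      ∑ p ∈ G, Real.exp (-u * (agr S p).card) := by
  have h1 : ∀ p : Finset ι × Finset ι, Real.exp (-(3 / 5 * u) * S.card) *
      (1 + u * (3 / 5 * S.card - (agr S p).card)) ≤ Real.exp (-u * (agr S p).card) := by
    intro p
    have h2 : Real.exp (-u * (agr S p).card) = Real.exp (-(3 / 5 * u) * S.card) *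
        Real.exp (u * (3 / 5 * S.card - (agr S p).card)) := by
      rw [← Real.exp_add]
      congr 1
      ring
    rw [h2]
    apply mul_le_mul_of_nonneg_left _ (Real.exp_pos _).le
    have := Real.add_one_le_exp (u * (3 / 5 * S.card - (agr S p).card))
    linarith
  refine le_trans ?_ (sum_le_sum fun p _ => h1 p)
  rw [← mul_sum, sum_add_distrib, sum_const, nsmul_eq_mul, mul_one, ← mul_sum, sum_sub_distrib,
    sum_const, nsmul_eq_mul, mul_comm]
  apply mul_le_mul_of_nonneg_left _ (Real.exp_pos _).le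
  nlinarith

theorem step (a : κ → ι → ℝ) (S : Finset ι) (D R d : ℝ) (hD : 0 < D) (hD2 : 12 / D ^ 2 ≤ 1 / 50)
    (ha : ∀ i ∈ S, ∑ k, a k i ^ 2 ≤ 1) (hd : 0 ≤ d)
    (hR : ∀ Z ⊆ S, Real.exp ((Real.log 2 - d) * Z.card) ≤ (gd a Z R).card) :
    Real.exp ((Real.log 2 - (12 / D ^ 2 + 3 / 5 * d)) * S.card) ≤ (gd a S (R + D)).card := by
  have h1 := card_prs a S D hD ha
  have hsub : prs a S D ⊆ S.powerset ×ˢ S.powerset := Finset.filter_subset _ _
  have h2 : (4:ℝ) ^ S.card * Real.exp (-(1 / 50) * S.card) ≤ (prs a S D).card := by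
    refine le_trans ?_ h1
    apply mul_le_mul_of_nonneg_left _ (by positivity)
    apply Real.exp_le_exp.2
    have : (0:ℝ) ≤ S.card := by positivity
    nlinarith
  have h3 := sum_exp_ge S _ d hd (avg_le S _ hsub h2)
  have h4 := count_step a S D R
  have h5 : ∑ p ∈ prs a S D, Real.exp (-d * (agr S p).card) ≤
      ∑ p ∈ prs a S D, ((gd a (agr S p) R).card : ℝ) / 2 ^ (agr S p).card := by
    refine sum_le_sum fun p hp => ?_
    rw [le_div_iff₀ (by positivity)]
    have h6 := hR (agr S p) (agr_subset (mem_prs.1 hp).1.1)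
    refine le_trans (le_of_eq ?_) h6
    have h7 : (2:ℝ) ^ (agr S p).card = Real.exp (Real.log 2 * (agr S p).card) := by
      rw [mul_comm, Real.exp_nat_mul, Real.exp_log (by norm_num)]
    rw [h7, ← Real.exp_add]
    congr 1
    ring
  have h8 : (4:ℝ) ^ S.card * Real.exp (-(12 / D ^ 2) * S.card) *
      Real.exp (-(3 / 5 * d) * S.card) ≤ 2 ^ S.card * ((gd a S (R + D)).card : ℝ) :=
    (mul_le_mul_of_nonneg_right h1 (Real.exp_pos _).le).trans (h3.trans (h5.trans h4))
  have h9 : (4:ℝ) ^ S.card = 2 ^ S.card * Real.exp (Real.log 2 * S.card) := by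
    have h7 : (2:ℝ) ^ S.card = Real.exp (Real.log 2 * S.card) := by
      rw [mul_comm, Real.exp_nat_mul, Real.exp_log (by norm_num)]
    rw [← h7, ← mul_pow]
    norm_num
  rw [h9] at h8
  have h10 : (2:ℝ) ^ S.card * Real.exp (Real.log 2 * S.card) *
      Real.exp (-(12 / D ^ 2) * S.card) * Real.exp (-(3 / 5 * d) * S.card) =
      2 ^ S.card * Real.exp ((Real.log 2 - (12 / D ^ 2 + 3 / 5 * d)) * S.card) := by
    rw [mul_assoc, mul_assoc, ← Real.exp_add, ← Real.exp_add]
    congr 2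
    ring
  rw [h10] at h8
  exact le_of_mul_le_mul_left h8 (by positivity)

theorem gd_mono (a : κ → ι → ℝ) (S : Finset ι) {R R' : ℝ} (h : R ≤ R') :
    gd a S R ⊆ gd a S R' := by
  intro T hT
  rw [mem_gd] at hT ⊢
  exact ⟨hT.1, fun k => (hT.2 k).trans h⟩

theorem main_aux (a : κ → ι → ℝ) (B : ℝ) (K : ℕ) : ∀ (D : ℝ), 0 < D →
    (K = 0 ∨ 12 / D ^ 2 * (25 / 16) ^ (K - 1) ≤ 1 / 50) →
    ∀ S : Finset ι, (∀ i ∈ S, ∑ k, a k i ^ 2 ≤ 1) → (∀ Z ⊆ S, (gd a Z B).Nonempty) →
    Real.exp ((Real.log 2 - (192 / D ^ 2 + (3 / 5) ^ K * Real.log 2)) * S.card) ≤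
      (gd a S (B + 5 * D)).card := by
  induction K with
  | zero =>
    intro D hD _ S _ hB
    have h1 : (gd a S (B + 5 * D)).Nonempty := (hB S (Subset.refl S)).mono
      (gd_mono a S (by linarith))
    have h2 : (1:ℝ) ≤ (gd a S (B + 5 * D)).card := by exact_mod_cast h1.card_pos
    refine le_trans ?_ h2
    rw [Real.exp_le_one_iff]
    have h3 : (0:ℝ) ≤ S.card := by positivity
    have h4 : 0 ≤ 192 / D ^ 2 := by positivity
    simp only [pow_zero, one_mul]
    nlinarith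
  | succ K ih =>
    intro D hD hK S ha hB
    have hK' : 12 / D ^ 2 * (25 / 16) ^ K ≤ 1 / 50 := by
      rcases hK with h | h
      · exact absurd h (Nat.succ_ne_zero K)
      · simpa using h
    have hD2 : 12 / D ^ 2 ≤ 1 / 50 := by
      refine le_trans ?_ hK'
      have h1 : (1:ℝ) ≤ (25 / 16) ^ K := one_le_pow₀ (by norm_num)
      have h2 : 0 ≤ 12 / D ^ 2 := by positivity
      nlinarith
    have hD' : 0 < 4 / 5 * D := by positivity
    have hcond : K = 0 ∨ 12 / (4 / 5 * D) ^ 2 * (25 / 16) ^ (K - 1) ≤ 1 / 50 := by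
      rcases K with _ | K
      · exact Or.inl rfl
      · right
        refine le_trans (le_of_eq ?_) hK'
        rw [Nat.add_sub_cancel, pow_succ]
        field_simp
        ring
    have hl2 : 0 < Real.log 2 := Real.log_pos (by norm_num)
    have h := step a S D (B + 5 * (4 / 5 * D)) (192 / (4 / 5 * D) ^ 2 + (3 / 5) ^ K * Real.log 2)
      hD hD2 ha (by positivity) (fun Z hZ => ih (4 / 5 * D) hD' hcond Z
        (fun i hi => ha i (hZ hi)) (fun W hW => hB W (hW.trans hZ)))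
    have h1 : B + 5 * (4 / 5 * D) + D = B + 5 * D := by ring
    rw [h1] at h
    refine le_trans (le_of_eq ?_) h
    congr 3
    rw [pow_succ]
    field_simp
    ring

/-- **The counting theorem.** -/
theorem main (a : κ → ι → ℝ) (S : Finset ι) (B D : ℝ) (hD : 0 < D)
    (ha : ∀ i ∈ S, ∑ k, a k i ^ 2 ≤ 1) (hB : ∀ Z ⊆ S, (gd a Z B).Nonempty) :
    2 ^ S.card * Real.exp (-(15200 * S.card / D ^ 2)) ≤ ((gd a S (B + D)).card : ℝ) := by
  classical
  set D₀ : ℝ := D / 5 with hD₀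
  have hD0 : 0 < D₀ := by positivity
  have hex : ∃ K : ℕ, 1 / 50 < 12 / D₀ ^ 2 * (25 / 16) ^ K := by
    obtain ⟨K, hK⟩ := pow_unbounded_of_one_lt (1 / 50 / (12 / D₀ ^ 2)) (by norm_num : (1:ℝ) < 25/16)
    refine ⟨K, ?_⟩
    rw [div_lt_iff₀ (by positivity)] at hK
    linarith
  set K := Nat.find hex with hK
  have h1 : 1 / 50 < 12 / D₀ ^ 2 * (25 / 16) ^ K := Nat.find_spec hex
  have h2 : K = 0 ∨ 12 / D₀ ^ 2 * (25 / 16) ^ (K - 1) ≤ 1 / 50 := by
    rcases Nat.eq_zero_or_pos K with h | h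
    · exact Or.inl h
    · right
      have := Nat.find_min hex (show K - 1 < Nat.find hex by omega)
      exact not_lt.1 this
  have h3 := main_aux a B K D₀ hD0 h2 S ha hB
  have h4 : B + 5 * D₀ = B + D := by
    rw [hD₀]
    ring
  rw [h4] at h3
  refine le_trans ?_ h3
  have h5 : (2:ℝ) ^ S.card = Real.exp (Real.log 2 * S.card) := by
    rw [mul_comm, Real.exp_nat_mul, Real.exp_log (by norm_num)]
  rw [h5, ← Real.exp_add]
  apply Real.exp_le_exp.2
  have h6 : ((3:ℝ) / 5) ^ K ≤ (16 / 25) ^ K := pow_le_pow_left₀ (by norm_num) (by norm_num) K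
  have h7 : ((16:ℝ) / 25) ^ K < 600 / D₀ ^ 2 := by
    have h8 : ((25:ℝ) / 16) ^ K * (16 / 25) ^ K = 1 := by
      rw [← mul_pow]
      norm_num
    have h9 : 0 < ((16:ℝ) / 25) ^ K := by positivity
    have h10 := mul_lt_mul_of_pos_right h1 h9
    rw [mul_assoc, h8, mul_one] at h10
    have h11 : (600:ℝ) / D₀ ^ 2 = 50 * (12 / D₀ ^ 2) := by ring
    rw [h11]
    linarith
  have hl2 : Real.log 2 < 0.6931471808 := Real.log_two_lt_d9
  have hl3 : 0 < Real.log 2 := Real.log_pos (by norm_num)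
  have h12 : 192 / D₀ ^ 2 + (3 / 5) ^ K * Real.log 2 ≤ 608 / D₀ ^ 2 := by
    have h13 : (3 / 5) ^ K * Real.log 2 ≤ 600 / D₀ ^ 2 * Real.log 2 :=
      mul_le_mul_of_nonneg_right (h6.trans h7.le) hl3.le
    have h14 : 600 / D₀ ^ 2 * Real.log 2 ≤ 600 / D₀ ^ 2 * 0.6931471808 :=
      mul_le_mul_of_nonneg_left hl2.le (by positivity)
    have h15 : 0 < 1 / D₀ ^ 2 := by positivity
    have h16 : 192 / D₀ ^ 2 = 192 * (1 / D₀ ^ 2) := by ring
    have h17 : 600 / D₀ ^ 2 = 600 * (1 / D₀ ^ 2) := by ring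
    have h18 : 608 / D₀ ^ 2 = 608 * (1 / D₀ ^ 2) := by ring
    rw [h16, h18]
    rw [h17] at h13 h14
    nlinarith
  have h19 : 15200 * (S.card : ℝ) / D ^ 2 = 608 / D₀ ^ 2 * S.card := by
    rw [hD₀]
    field_simp
    ring
  rw [h19]
  have h20 : (0:ℝ) ≤ S.card := by positivity
  nlinarith

end Pool.Agent.Y774.KC
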