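import Pool.Agent.Y774.KC.Col

/-!
# One step: from differences of signings to signings
-/

set_option autoImplicit false

namespace Pool.Agent.Y774.KC

open Finset

variable {ι κ : Type} [DecidableEq ι] [Fintype κ]

open Classical in
/-- Signings of `S` (given by their positive parts) of value at most `R`. -/
noncomputable def gd (a : κ → ι → ℝ) (S : Finset ι) (R : ℝ) : Finset (Finset ι) :=
  S.powerset.filter (fun T => ∀ k, |sg (a k) S T| ≤ R)

theorem mem_gd {a : κ → ι → ℝ} {S : Finset ι} {R : ℝ} {T : Finset ι} :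
    T ∈ gd a S R ↔ T ⊆ S ∧ ∀ k, |sg (a k) S T| ≤ R := by
  simp [gd]

theorem mem_prs {a : κ → ι → ℝ} {S : Finset ι} {D : ℝ} {p : Finset ι × Finset ι} :
    p ∈ prs a S D ↔ (p.1 ⊆ S ∧ p.2 ⊆ S) ∧ ∀ k, |sg (a k) S p.1 - sg (a k) S p.2| ≤ 2 * D := by
  simp [prs]

/-- The part of `S` on which two signings agree. -/
def agr (S : Finset ι) (p : Finset ι × Finset ι) : Finset ι :=
  (p.1 ∩ p.2) ∪ (S \ (p.1 ∪ p.2))

theorem agr_subset {S : Finset ι} {p : Finset ι × Finset ι} (h : p.1 ⊆ S) : agr S p ⊆ S := by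
  intro i hi
  simp only [agr, mem_union, mem_inter, mem_sdiff] at hi
  rcases hi with hi | hi
  · exact h hi.1
  · exact hi.1

/-- The signed sum in the form `∑ ± f`. -/
theorem sg_eq (f : ι → ℝ) (S T : Finset ι) (hT : T ⊆ S) :
    sg f S T = ∑ i ∈ S, (if i ∈ T then f i else -f i) := by
  unfold sg
  rw [← Finset.sum_sdiff hT]
  have h1 : ∑ i ∈ S \ T, (if i ∈ T then f i else -f i) = -∑ i ∈ S \ T, f i := by
    rw [← Finset.sum_neg_distrib]
    refine sum_congr rfl fun i hi => ?_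
    rw [if_neg (mem_sdiff.1 hi).2]
  have h2 : ∑ i ∈ T, (if i ∈ T then f i else -f i) = ∑ i ∈ T, f i :=
    sum_congr rfl fun i hi => if_pos hi
  rw [h1, h2]
  ring

theorem merge (f : ι → ℝ) (S T T' U : Finset ι) (hT : T ⊆ S) (hT' : T' ⊆ S)
    (hU : U ⊆ agr S (T, T')) :
    sg f S ((T \ T') ∪ U) = (sg f S T - sg f S T') / 2 + sg f (agr S (T, T')) U := by
  have hZ : agr S (T, T') ⊆ S := agr_subset hT
  have hW : (T \ T') ∪ U ⊆ S := union_subset (sdiff_subset.trans hT) (hU.trans hZ)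
  rw [sg_eq f S _ hW, sg_eq f S _ hT, sg_eq f S _ hT', sg_eq f _ U hU, ← sum_sub_distrib,
    sum_div, ← sum_filter_add_sum_filter_not S (fun i => i ∈ agr S (T, T'))
      (fun i => if i ∈ T \ T' ∪ U then f i else -f i),
    ← sum_filter_add_sum_filter_not S (fun i => i ∈ agr S (T, T'))
      (fun i => ((if i ∈ T then f i else -f i) - if i ∈ T' then f i else -f i) / 2)]
  have h1 : S.filter (fun i => i ∈ agr S (T, T')) = agr S (T, T') := by
    ext i
    simp only [mem_filter]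
    exact ⟨fun h => h.2, fun h => ⟨hZ h, h⟩⟩
  rw [h1]
  have h2 : ∑ i ∈ agr S (T, T'), (if i ∈ T \ T' ∪ U then f i else -f i) =
      ∑ i ∈ agr S (T, T'), (if i ∈ U then f i else -f i) := by
    refine sum_congr rfl fun i hi => ?_
    have h3 : i ∉ T \ T' := by
      simp only [agr, mem_union, mem_inter, mem_sdiff] at hi
      simp only [mem_sdiff, not_and, not_not]
      intro h4
      rcases hi with hi | hi
      · exact hi.2
      · exact absurd (Or.inl h4) hi.2
    simp only [mem_union, h3, false_or]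
  have h4 : ∑ i ∈ agr S (T, T'), ((if i ∈ T then f i else -f i) -
      if i ∈ T' then f i else -f i) / 2 = 0 := by
    refine sum_eq_zero fun i hi => ?_
    simp only [agr, mem_union, mem_inter, mem_sdiff, not_or] at hi
    rcases hi with hi | hi
    · rw [if_pos hi.1, if_pos hi.2]
      ring
    · rw [if_neg hi.2.1, if_neg hi.2.2]
      ring
  have h5 : ∑ i ∈ S with i ∉ agr S (T, T'), (if i ∈ T \ T' ∪ U then f i else -f i) =
      ∑ i ∈ S with i ∉ agr S (T, T'), ((if i ∈ T then f i else -f i) -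
        if i ∈ T' then f i else -f i) / 2 := by
    refine sum_congr rfl fun i hi => ?_
    rw [mem_filter] at hi
    have h6 : i ∉ U := fun h => hi.2 (hU h)
    have h7 := hi.2
    simp only [agr, mem_union, mem_inter, mem_sdiff, not_or, not_and] at h7
    by_cases hiT : i ∈ T
    · have hiT' : i ∉ T' := h7.1 hiT
      rw [if_pos (by simp [hiT, hiT']), if_pos hiT, if_neg hiT']
      ring
    · have hiT' : i ∈ T' := by
        by_contra h8
        exact h7.2 hi.1 hiT h8
      rw [if_neg (by simp [hiT, h6]), if_neg hiT, if_pos hiT']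
      ring
  rw [h2, h4, h5]
  ring

theorem rec1 (S T T' U : Finset ι) (hU : U ⊆ agr S (T, T')) :
    (((T \ T') ∪ U) \ agr S (T, T')) ∪ (T ∩ T') = T := by
  ext i
  have h := @hU i
  simp only [agr, mem_union, mem_inter, mem_sdiff, not_or] at h ⊢
  by_cases h1 : i ∈ T <;> by_cases h2 : i ∈ T' <;> by_cases h3 : i ∈ U <;> simp_all

theorem rec2 (S T T' U : Finset ι) (hT' : T' ⊆ S) (hU : U ⊆ agr S (T, T')) :
    ((S \ agr S (T, T')) \ ((T \ T') ∪ U)) ∪ (T ∩ T') = T' := by
  ext i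
  have h := @hU i
  have h' := @hT' i
  simp only [agr, mem_union, mem_inter, mem_sdiff, not_or] at h ⊢
  by_cases h1 : i ∈ T <;> by_cases h2 : i ∈ T' <;> by_cases h3 : i ∈ U <;>
    by_cases h4 : i ∈ S <;> simp_all

theorem rec3 (S T T' U : Finset ι) (hU : U ⊆ agr S (T, T')) :
    ((T \ T') ∪ U) ∩ agr S (T, T') = U := by
  ext i
  have h := @hU i
  simp only [agr, mem_union, mem_inter, mem_sdiff, not_or] at h ⊢
  by_cases h1 : i ∈ T <;> by_cases h2 : i ∈ T' <;> by_cases h3 : i ∈ U <;> simp_all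

/-- The counting step. -/
theorem count_step (a : κ → ι → ℝ) (S : Finset ι) (D R : ℝ) :
    ∑ p ∈ prs a S D, ((gd a (agr S p) R).card : ℝ) / 2 ^ (agr S p).card ≤
      2 ^ S.card * ((gd a S (R + D)).card : ℝ) := by
  classical
  have h1 : ∀ p, ((gd a (agr S p) R).card : ℝ) / 2 ^ (agr S p).card =
      ∑ U ∈ gd a (agr S p) R, (1:ℝ) / 2 ^ (agr S p).card := by
    intro p
    rw [sum_const, nsmul_eq_mul]
    ring
  simp_rw [h1]
  rw [sum_sigma']
  have h2 : (2:ℝ) ^ S.card * ((gd a S (R + D)).card : ℝ) =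
      ∑ q ∈ (gd a S (R + D) ×ˢ (S.powerset.sigma fun Z => Z.powerset)),
        (1:ℝ) / 2 ^ q.2.1.card := by
    have h3 : ∑ y ∈ (S.powerset.sigma fun Z => Z.powerset), (1:ℝ) / 2 ^ y.1.card =
        2 ^ S.card := by
      rw [sum_sigma]
      have h4 : ∀ Z ∈ S.powerset, ∑ _x ∈ Z.powerset, (1:ℝ) / 2 ^ Z.card = 1 := by
        intro Z _
        rw [sum_const, card_powerset, nsmul_eq_mul]
        push_cast
        field_simp
      rw [sum_congr rfl h4, sum_const, card_powerset, nsmul_eq_mul]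
      push_cast
      ring
    rw [sum_product]
    simp only
    rw [h3, sum_const, nsmul_eq_mul]
    ring
  rw [h2]
  refine le_trans (le_of_eq ?_) (sum_le_sum_of_subset_of_nonneg (s := image
    (fun x : (p : Finset ι × Finset ι) × Finset ι =>
      (((x.1.1 \ x.1.2) ∪ x.2, ⟨agr S x.1, x.1.1 ∩ x.1.2⟩) :
        Finset ι × ((_ : Finset ι) × Finset ι)))
    ((prs a S D).sigma fun p => gd a (agr S p) R)) ?_ fun q _ _ => by positivity)
  · rw [sum_image]
    rintro ⟨⟨T, T'⟩, U⟩ hx ⟨⟨T₁, T₁'⟩, U₁⟩ hx₁ h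
    simp only [coe_sigma, Set.mem_sigma_iff, mem_coe, mem_prs, mem_gd] at hx hx₁
    simp only [Prod.mk.injEq, Sigma.mk.injEq] at h
    obtain ⟨h3, h4, h5⟩ := h
    have h5 := eq_of_heq h5
    obtain ⟨⟨⟨a1, a2⟩, -⟩, a3, -⟩ := hx
    obtain ⟨⟨⟨b1, b2⟩, -⟩, b3, -⟩ := hx₁
    have k1 : T = T₁ := by
      rw [← rec1 S T T' U a3, ← rec1 S T₁ T₁' U₁ b3, h3, h4, h5]
    have k2 : T' = T₁' := by
      rw [← rec2 S T T' U a2 a3, ← rec2 S T₁ T₁' U₁ b2 b3, h3, h4, h5]
    have k3 : U = U₁ := by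
      rw [← rec3 S T T' U a3, ← rec3 S T₁ T₁' U₁ b3, h3, h4]
    subst k1 k2 k3
    rfl
  · intro q hq
    rw [mem_image] at hq
    obtain ⟨⟨⟨T, T'⟩, U⟩, hx, rfl⟩ := hq
    simp only [mem_sigma, mem_prs, mem_gd] at hx
    obtain ⟨⟨⟨a1, a2⟩, a3⟩, a4, a5⟩ := hx
    simp only [mem_product, mem_sigma, mem_powerset, mem_gd]
    have hZ : agr S (T, T') ⊆ S := agr_subset a1
    refine ⟨⟨union_subset (sdiff_subset.trans a1) (a4.trans hZ), fun k => ?_⟩, hZ, ?_⟩
    · rw [merge _ S T T' U a1 a2 a4]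
      have h6 := a3 k
      have h7 := a5 k
      rw [abs_le] at h6 h7 ⊢
      constructor <;> linarith [h6.1, h6.2, h7.1, h7.2]
    · intro i hi
      simp only [agr, mem_union]
      exact Or.inl hi

end Pool.Agent.Y774.KC
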