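import Pool.Agent.Y774.KC.Rec

/-!
# The counting theorem for signings given as functions; blocks of equal vectors
-/

set_option autoImplicit false

namespace Pool.Agent.Y774.KC

open Finset

section
variable {ι κ : Type} [DecidableEq ι] [Fintype κ]

theorem gd_nonempty_of (a : κ → ι → ℝ) (Z : Finset ι) (B : ℝ) (x : ι → ℝ)
    (hx : ∀ i, x i = 1 ∨ x i = -1) (h : ∀ k, |∑ i ∈ Z, x i * a k i| ≤ B) :
    (gd a Z B).Nonempty := by
  classical
  refine ⟨Z.filter (fun i => x i = 1), mem_gd.2 ⟨filter_subset _ _, fun k => ?_⟩⟩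
  rw [sg_eq _ _ _ (filter_subset _ _)]
  have h1 : ∑ i ∈ Z, (if i ∈ Z.filter (fun i => x i = 1) then a k i else -a k i) =
      ∑ i ∈ Z, x i * a k i := by
    refine sum_congr rfl fun i hi => ?_
    rcases hx i with h2 | h2
    · rw [if_pos (mem_filter.2 ⟨hi, h2⟩), h2, one_mul]
    · rw [if_neg, h2]
      · ring
      · intro h3
        rw [(mem_filter.1 h3).2] at h2
        norm_num at h2
  rw [h1]
  exact h k

theorem card_signings [Fintype ι] (a : κ → ι → ℝ) (R : ℝ) :
    Nat.card {ε : ι → ℤˣ // ∀ k, |∑ i, ((ε i : ℤ) : ℝ) * a k i| ≤ R} = (gd a univ R).card := by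
  classical
  rw [← Fintype.card_coe, ← Nat.card_eq_fintype_card]
  have key : ∀ (ε : ι → ℤˣ) (k : κ), sg (a k) univ (univ.filter (fun i => ε i = 1)) =
      ∑ i, ((ε i : ℤ) : ℝ) * a k i := by
    intro ε k
    rw [sg_eq _ _ _ (filter_subset _ _)]
    refine sum_congr rfl fun i _ => ?_
    rcases Int.units_eq_one_or (ε i) with h | h
    · simp [h]
    · have : ((-1 : ℤˣ)) ≠ 1 := by decide
      simp [h, this]
  refine Nat.card_congr
    { toFun := fun ε => ⟨univ.filter (fun i => ε.1 i = 1), ?_⟩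
      invFun := fun T => ⟨fun i => if i ∈ T.1 then 1 else -1, ?_⟩
      left_inv := ?_
      right_inv := ?_ }
  · rw [mem_gd]
    refine ⟨filter_subset _ _, fun k => ?_⟩
    rw [key]
    exact ε.2 k
  · intro k
    have h1 := (mem_gd.1 T.2).2 k
    have h2 := key (fun i => if i ∈ T.1 then 1 else -1) k
    have h3 : univ.filter (fun i => (if i ∈ T.1 then (1:ℤˣ) else -1) = 1) = T.1 := by
      ext i
      simp only [mem_filter, mem_univ, true_and]
      split_ifs with h
      · simp [h]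
      · simp only [h, iff_false]
        decide
    rw [h3] at h2
    rw [← h2]
    exact h1
  · intro ε
    apply Subtype.ext
    funext i
    simp only [mem_filter, mem_univ, true_and]
    rcases Int.units_eq_one_or (ε.1 i) with h | h
    · simp [h]
    · rw [if_neg]
      · exact h.symm
      · rw [h]
        decide
  · intro T
    apply Subtype.ext
    ext i
    simp only [mem_filter, mem_univ, true_and]
    split_ifs with h
    · simp [h]
    · simp only [h, iff_false]
      decide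

/-- **Counting theorem**, signings as functions. -/
theorem main_fun [Fintype ι] (a : κ → ι → ℝ) (B D : ℝ) (hD : 0 < D)
    (ha : ∀ i, ∑ k, a k i ^ 2 ≤ 1)
    (hB : ∀ Z : Finset ι, ∃ x : ι → ℝ, (∀ i, x i = 1 ∨ x i = -1) ∧
      ∀ k, |∑ i ∈ Z, x i * a k i| ≤ B) :
    2 ^ Fintype.card ι * Real.exp (-(15200 * Fintype.card ι / D ^ 2)) ≤
      (Nat.card {ε : ι → ℤˣ // ∀ k, |∑ i, ((ε i : ℤ) : ℝ) * a k i| ≤ B + D} : ℝ) := by
  rw [card_signings]
  refine main a univ B D hD (fun i _ => ha i) fun Z _ => ?_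
  obtain ⟨x, hx, h⟩ := hB Z
  exact gd_nonempty_of a Z B x hx h

end

/-- The number of signs sequences of length `k` with a small sum. -/
theorem small_sum (k : ℕ) (D : ℝ) (hD : 0 < D) (hk : 4 * D ^ 2 ≤ k) :
    (Nat.card {ε : Fin k → ℤˣ // |∑ i, ((ε i : ℤ) : ℝ)| ≤ D} : ℝ) ≤ 13 / 16 * 2 ^ k := by
  classical
  have h1 : Nat.card {ε : Fin k → ℤˣ // |∑ i, ((ε i : ℤ) : ℝ)| ≤ D} =
      (gd (fun (_ : Unit) (_ : Fin k) => (1:ℝ)) univ D).card := by
    rw [← card_signings]
    apply Nat.card_congr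
    apply Equiv.subtypeEquivRight
    intro ε
    simp
  rw [h1]
  set G := gd (fun (_ : Unit) (_ : Fin k) => (1:ℝ)) univ D with hG
  have hsub : G ⊆ (univ : Finset (Fin k)).powerset := filter_subset _ _
  have e2 := m2 (fun _ : Fin k => (1:ℝ)) univ
  have e4 := m4 (fun _ : Fin k => (1:ℝ)) univ
  set X : Finset (Fin k) → ℝ := fun T => sg (fun _ : Fin k => (1:ℝ)) univ T with hX
  simp only [one_pow, sum_const, card_univ, Fintype.card_fin, nsmul_eq_mul, mul_one] at e2 e4
  have hP : (0:ℝ) < 2 ^ k := by positivity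
  have hk0 : (0:ℝ) < k := by
    have : 0 < 4 * D ^ 2 := by positivity
    linarith
  -- split
  have h3 : ∑ T ∈ G, X T ^ 2 + ∑ T ∈ univ.powerset \ G, X T ^ 2 = 2 ^ k * k := by
    rw [← e2, add_comm, sum_sdiff hsub]
  have h4 : ∑ T ∈ G, X T ^ 2 ≤ 2 ^ k * (k / 4) := by
    have h5 : ∀ T ∈ G, X T ^ 2 ≤ k / 4 := by
      intro T hT
      have h6 := (mem_gd.1 hT).2 ()
      have h7 : X T ^ 2 ≤ D ^ 2 := by
        rw [← sq_abs]
        exact pow_le_pow_left₀ (abs_nonneg _) h6 2
      linarith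
    refine (sum_le_card_nsmul _ _ _ h5).trans ?_
    rw [nsmul_eq_mul]
    apply mul_le_mul_of_nonneg_right _ (by positivity)
    have := card_le_card hsub
    rw [card_powerset, card_univ, Fintype.card_fin] at this
    exact_mod_cast this
  have h8 : 2 ^ k * (3 * (k:ℝ) / 4) ≤ ∑ T ∈ univ.powerset \ G, X T ^ 2 := by linarith
  have h9 : (∑ T ∈ univ.powerset \ G, X T ^ 2) ^ 2 ≤
      ((univ.powerset \ G).card : ℝ) * ∑ T ∈ univ.powerset \ G, X T ^ 4 := by
    have := sum_mul_sq_le_sq_mul_sq (univ.powerset \ G) (fun _ => (1:ℝ)) (fun T => X T ^ 2)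
    have hx : ∀ T, (X T ^ 2) ^ 2 = X T ^ 4 := fun T => by ring
    simp only [one_mul, one_pow, sum_const, nsmul_eq_mul, mul_one, hx] at this
    exact this
  have h10 : ∑ T ∈ univ.powerset \ G, X T ^ 4 ≤ 3 * 2 ^ k * (k:ℝ) ^ 2 := by
    refine le_trans ?_ e4
    exact sum_le_sum_of_subset_of_nonneg sdiff_subset fun T _ _ => by positivity
  have h11 : (2 ^ k * (3 * (k:ℝ) / 4)) ^ 2 ≤
      ((univ.powerset \ G).card : ℝ) * (3 * 2 ^ k * (k:ℝ) ^ 2) := by
    refine le_trans (pow_le_pow_left₀ (by positivity) h8 2) (h9.trans ?_)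
    exact mul_le_mul_of_nonneg_left h10 (by positivity)
  have h12 : (2:ℝ) ^ k * (3 / 16) ≤ ((univ.powerset \ G).card : ℝ) := by
    have h13 : 0 < 3 * 2 ^ k * (k:ℝ) ^ 2 := by positivity
    have h14 : (2 ^ k * (3 * (k:ℝ) / 4)) ^ 2 = (2 ^ k * (3 / 16)) * (3 * 2 ^ k * (k:ℝ) ^ 2) := by
      ring
    rw [h14] at h11
    exact le_of_mul_le_mul_right h11 h13
  have h15 : ((univ.powerset \ G).card : ℝ) + G.card = 2 ^ k := by
    have := card_sdiff_add_card_eq_card hsub
    rw [card_powerset, card_univ, Fintype.card_fin] at this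
    exact_mod_cast this
  linarith

end Pool.Agent.Y774.KC
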